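import Pool.Agent.V8H55.CS.Star

/-!
# Compactness of double lattice packings
-/

namespace Pool.Agent.V8H55.CS

open MeasureTheory Set Filter Topology
open Pool.Agent.H349R2.Tet (V lat dt dt_eq Ov lat_add lat_neg lat_smul)
open Pool.Agent.TH219.DL
open Pool.Agent.V8H55.MD
open Pool.Agent.V8H55.CP

/-- convergence of reduced bases -/
theorem bases {b : ℕ → Fin 3 → V} (hb : ∀ n, dt (b n) ≠ 0) {ρ Δ : ℝ} (hρ : 0 < ρ)
    (hlow : ∀ n, ∀ u ∈ lat (b n), u ≠ 0 → ρ ^ 2 ≤ ip u u) (hΔ : ∀ n, |dt (b n)| ≤ Δ) :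
    ∃ (c : ℕ → Fin 3 → V) (φ : ℕ → ℕ) (c' : Fin 3 → V) (B : ℝ), (∀ n, Eqv (b n) (c n)) ∧
      0 ≤ B ∧ (∀ n i j, |c n i j| ≤ B) ∧ StrictMono φ ∧
      Tendsto (fun n => c (φ n)) atTop (𝓝 c') ∧ dt c' ≠ 0 ∧ |dt c'| ≤ Δ := by
  choose c hcE hc6 hc4 using fun n => reduce hρ (hb n) (hlow n)
  have hΔ0 : 0 ≤ Δ := (abs_nonneg _).trans (hΔ 0)
  have hsq : ∀ n, dt (c n) ^ 2 = dt (b n) ^ 2 := fun n => by rw [← sq_abs, (hcE n).2, sq_abs]
  have hsqΔ : ∀ n, dt (b n) ^ 2 ≤ Δ ^ 2 := fun n => by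
    rw [← sq_abs]; exact pow_le_pow_left₀ (abs_nonneg _) (hΔ n) 2
  set B : ℝ := 3 * Δ / ρ ^ 2 with hB
  have hB0 : 0 ≤ B := by rw [hB]; positivity
  have hcB : ∀ n i, ip (c n i) (c n i) ≤ B ^ 2 := by
    intro n i
    have h1 := (hc4 n i).trans (mul_le_mul_of_nonneg_left (hsqΔ n) (by norm_num : (0 : ℝ) ≤ 8))
    rw [hB, div_pow, le_div_iff₀ (by positivity)]
    nlinarith [sq_nonneg Δ]
  have hce : ∀ n i j, |c n i j| ≤ B := fun n i j => entry_le hB0 (hcB n i) j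
  have hbd : Bornology.IsBounded (Set.range c) := by
    rw [isBounded_iff_forall_norm_le]
    refine ⟨B, ?_⟩
    rintro _ ⟨n, rfl⟩
    rw [pi_norm_le_iff_of_nonneg hB0]
    intro i
    rw [pi_norm_le_iff_of_nonneg hB0]
    intro j
    exact hce n i j
  obtain ⟨c', -, φ, hφ, hlim⟩ := tendsto_subseq_of_bounded hbd (fun n => Set.mem_range_self n)
  have hlimd : Tendsto (fun n => dt (c (φ n))) atTop (𝓝 (dt c')) :=
    (dt_cont.tendsto c').comp hlim
  have hd6 : ρ ^ 6 ≤ 8 * dt c' ^ 2 := by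
    refine ge_of_tendsto ((hlimd.pow 2).const_mul 8) (Eventually.of_forall fun n => ?_)
    rw [hsq]; exact hc6 (φ n)
  have hd0 : dt c' ≠ 0 := by
    intro h0
    rw [h0] at hd6
    have : 0 < ρ ^ 6 := by positivity
    norm_num at hd6
    linarith
  have hdΔ : |dt c'| ≤ Δ := by
    refine le_of_tendsto hlimd.abs (Eventually.of_forall fun n => ?_)
    rw [(hcE (φ n)).2]; exact hΔ (φ n)
  exact ⟨c, φ, c', B, hcE, hB0, hce, hφ, hlim, hd0, hdΔ⟩

theorem int_conv {z : ℕ → ℤ} {t : ℝ} (h : Tendsto (fun n => (z n : ℝ)) atTop (𝓝 t)) :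
    ∃ m : ℤ, ∀ᶠ n in atTop, z n = m := by
  have h2 : ∀ᶠ n in atTop, |(z n : ℝ) - t| < 1 / 2 := by
    have h3 := (h.sub_const t).abs
    rw [sub_self, abs_zero] at h3
    exact h3.eventually_lt_const (by norm_num)
  obtain ⟨N, hN⟩ := eventually_atTop.1 h2
  refine ⟨z N, eventually_atTop.2 ⟨N, fun n hn => ?_⟩⟩
  have k1 := abs_lt.1 (hN n hn)
  have k2 := abs_lt.1 (hN N le_rfl)
  have h3 : |((z n - z N : ℤ) : ℝ)| < 1 := by
    push_cast
    rw [abs_lt]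
    constructor <;> linarith
  have h4 : |z n - z N| < 1 := by exact_mod_cast h3
  have h5 := Int.abs_lt_one_iff.1 h4
  linarith

/-- limits of lattice vectors -/
theorem vecs {c : ℕ → Fin 3 → V} {c' : Fin 3 → V} (hc : Tendsto c atTop (𝓝 c')) (hd : dt c' ≠ 0)
    {u : ℕ → V} {w : V} (hu : ∀ n, u n ∈ lat (c n)) (hlim : Tendsto u atTop (𝓝 w)) :
    w ∈ lat c' ∧ ((∀ n, u n ≠ 0) → w ≠ 0) := by
  choose z hz using hu
  have hlimd : Tendsto (fun n => dt (c n)) atTop (𝓝 (dt c')) := (dt_cont.tendsto c').comp hc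
  have hdn : ∀ᶠ n in atTop, dt (c n) ≠ 0 := hlimd.eventually_ne hd
  have hpair : Tendsto (fun n => (u n, c n)) atTop (𝓝 (w, c')) := hlim.prodMk_nhds hc
  have key : ∀ (F : V × (Fin 3 → V) → ℝ), Continuous F → ∀ i,
      (∀ n, F (u n, c n) = z n i * dt (c n)) → ∃ m : ℤ, ∀ᶠ n in atTop, z n i = m := by
    intro F hF i h
    have h1 : Tendsto (fun n => F (u n, c n) / dt (c n)) atTop (𝓝 (F (w, c') / dt c')) :=
      ((hF.tendsto _).comp hpair).div hlimd hd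
    apply int_conv (t := F (w, c') / dt c')
    refine h1.congr' ?_
    filter_upwards [hdn] with n hn
    rw [h n, mul_div_cancel_right₀ _ hn]
  have hex : ∀ i, ∃ m : ℤ, ∀ᶠ n in atTop, z n i = m := by
    intro i
    fin_cases i
    · refine key (fun q => dt ![q.1, q.2 1, q.2 2]) ?_ 0 fun n => ?_
      · have : (fun q : V × (Fin 3 → V) => dt ![q.1, q.2 1, q.2 2]) = fun q =>
            q.1 0 * q.2 1 1 * q.2 2 2 - q.1 0 * q.2 1 2 * q.2 2 1
            - q.1 1 * q.2 1 0 * q.2 2 2 + q.1 1 * q.2 1 2 * q.2 2 0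
            + q.1 2 * q.2 1 0 * q.2 2 1 - q.1 2 * q.2 1 1 * q.2 2 0 := by
          funext q
          rw [dt_eq]
          simp
        rw [this]
        fun_prop
      · have := (cramer (c n) (fun i => (z n i : ℝ))).1
        rw [← hz n] at this
        exact this
    · refine key (fun q => dt ![q.2 0, q.1, q.2 2]) ?_ 1 fun n => ?_
      · have : (fun q : V × (Fin 3 → V) => dt ![q.2 0, q.1, q.2 2]) = fun q =>
            q.2 0 0 * q.1 1 * q.2 2 2 - q.2 0 0 * q.1 2 * q.2 2 1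
            - q.2 0 1 * q.1 0 * q.2 2 2 + q.2 0 1 * q.1 2 * q.2 2 0
            + q.2 0 2 * q.1 0 * q.2 2 1 - q.2 0 2 * q.1 1 * q.2 2 0 := by
          funext q
          rw [dt_eq]
          simp
        rw [this]
        fun_prop
      · have := (cramer (c n) (fun i => (z n i : ℝ))).2.1
        rw [← hz n] at this
        exact this
    · refine key (fun q => dt ![q.2 0, q.2 1, q.1]) ?_ 2 fun n => ?_
      · have : (fun q : V × (Fin 3 → V) => dt ![q.2 0, q.2 1, q.1]) = fun q =>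
            q.2 0 0 * q.2 1 1 * q.1 2 - q.2 0 0 * q.2 1 2 * q.1 1
            - q.2 0 1 * q.2 1 0 * q.1 2 + q.2 0 1 * q.2 1 2 * q.1 0
            + q.2 0 2 * q.2 1 0 * q.1 1 - q.2 0 2 * q.2 1 1 * q.1 0 := by
          funext q
          rw [dt_eq]
          simp
        rw [this]
        fun_prop
      · have := (cramer (c n) (fun i => (z n i : ℝ))).2.2
        rw [← hz n] at this
        exact this
  choose m hm using hex
  have hm' : ∀ᶠ n in atTop, z n = m := by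
    filter_upwards [eventually_all.2 hm] with n hn
    funext i
    exact hn i
  have hcont : Continuous fun c : Fin 3 → V => ∑ i, (m i : ℝ) • c i := by fun_prop
  have hw : w = ∑ i, (m i : ℝ) • c' i := by
    refine tendsto_nhds_unique hlim (((hcont.tendsto c').comp hc).congr' ?_)
    filter_upwards [hm'] with n hn
    rw [hz n, hn]
    rfl
  refine ⟨⟨m, hw⟩, fun h0 => ?_⟩
  rw [hw]
  apply comb_ne hd
  intro hm0
  obtain ⟨n, hn⟩ := hm'.exists
  apply h0 n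
  rw [hz n, hn, hm0]
  simp

/-- limits of double lattice packings -/
theorem packs_lim {K : Set V} {Kn : ℕ → Set V}
    (hint : ∀ x ∈ interior K, ∃ ε : ℝ, 0 < ε ∧ ∀ᶠ n in atTop, ∀ y, dist y x < ε →
      y ∈ interior (Kn n))
    {c : ℕ → Fin 3 → V} {c' : Fin 3 → V} (hc : Tendsto c atTop (𝓝 c'))
    (hd : ∀ n, dt (c n) ≠ 0) {v : ℕ → V} {v' : V} (hv : Tendsto v atTop (𝓝 v'))
    (hp : ∀ n, PS (Kn n) (v n) (c n)) : PS K v' c' := by
  have hcomb : ∀ k : Fin 3 → ℤ, Tendsto (fun n => ∑ i, (k i : ℝ) • c n i) atTop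
      (𝓝 (∑ i, (k i : ℝ) • c' i)) := by
    intro k
    have hcont : Continuous fun c : Fin 3 → V => ∑ i, (k i : ℝ) • c i := by fun_prop
    exact (hcont.tendsto c').comp hc
  constructor
  · rintro u ⟨k, rfl⟩ hu0 ⟨x, hx, hxu⟩
    have hk0 : k ≠ 0 := by
      rintro rfl
      apply hu0
      simp
    obtain ⟨e1, he1, h1⟩ := hint x hx
    obtain ⟨e2, he2, h2⟩ := hint _ hxu
    have h3 : ∀ᶠ n in atTop, dist (x - ∑ i, (k i : ℝ) • c n i) (x - ∑ i, (k i : ℝ) • c' i)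
        < e2 := (Metric.tendsto_nhds.1 ((hcomb k).const_sub x)) e2 he2
    obtain ⟨n, hn1, hn2, hn3⟩ := (h1.and (h2.and h3)).exists
    exact (hp n).1 _ ⟨k, rfl⟩ (comb_ne (hd n) hk0)
      ⟨x, hn1 x (by rw [dist_self]; exact he1), hn2 _ hn3⟩
  · rintro u ⟨k, rfl⟩ ⟨x, hx, hxu⟩
    obtain ⟨e1, he1, h1⟩ := hint x hx
    obtain ⟨e2, he2, h2⟩ := hint _ hxu
    have h3 : ∀ᶠ n in atTop, dist (v n + ∑ i, (k i : ℝ) • c n i - x)
        (v' + ∑ i, (k i : ℝ) • c' i - x) < e2 :=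
      (Metric.tendsto_nhds.1 ((hv.add (hcomb k)).sub_const x)) e2 he2
    obtain ⟨n, hn1, hn2, hn3⟩ := (h1.and (h2.and h3)).exists
    exact (hp n).2 _ ⟨k, rfl⟩ ⟨x, hn1 x (by rw [dist_self]; exact he1), hn2 _ hn3⟩

/-- bounded representatives modulo a lattice -/
theorem rep {c : Fin 3 → V} (hd : dt c ≠ 0) {B : ℝ} (hB : ∀ i j, |c i j| ≤ B) (v : V) :
    ∃ s ∈ lat c, ∀ j, |(v + s) j| ≤ 2 * B := by
  set t : Fin 3 → ℝ := ![dt ![v, c 1, c 2] / dt c, dt ![c 0, v, c 2] / dt c,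
    dt ![c 0, c 1, v] / dt c] with ht
  have hv : v = ∑ i, t i • c i := by
    have h1 : dt c • v = dt ![v, c 1, c 2] • c 0 + dt ![c 0, v, c 2] • c 1
        + dt ![c 0, c 1, v] • c 2 := by
      simp only [dt_eq]
      funext j
      fin_cases j
      all_goals
        simp
        ring
    have h2 : v = (dt c)⁻¹ • (dt c • v) := by rw [smul_smul, inv_mul_cancel₀ hd, one_smul]
    rw [h2, h1, Fin.sum_univ_three, ht]
    simp only [smul_add, smul_smul, Matrix.cons_val_zero, Matrix.cons_val_one, Matrix.cons_val]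
    congr 1
    · congr 1
      · congr 1
        rw [div_eq_inv_mul]
      · congr 1
        rw [div_eq_inv_mul]
    · congr 1
      rw [div_eq_inv_mul]
  refine ⟨∑ i, ((-round (t i) : ℤ) : ℝ) • c i, ⟨fun i => -round (t i), rfl⟩, fun j => ?_⟩
  have e : v + ∑ i, ((-round (t i) : ℤ) : ℝ) • c i = ∑ i, (t i - round (t i)) • c i := by
    nth_rewrite 1 [hv]
    rw [← Finset.sum_add_distrib]
    refine Finset.sum_congr rfl fun i _ => ?_
    rw [← add_smul]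
    congr 1
    push_cast
    ring
  have hB0 : 0 ≤ B := (abs_nonneg _).trans (hB 0 0)
  rw [e, Fin.sum_univ_three]
  simp only [Pi.add_apply, Pi.smul_apply, smul_eq_mul]
  have h3 : ∀ i, |(t i - round (t i)) * c i j| ≤ 1 / 2 * B := by
    intro i
    rw [abs_mul]
    exact mul_le_mul (abs_sub_round _) (hB i j) (abs_nonneg _) (by norm_num)
  calc _ ≤ |(t 0 - round (t 0)) * c 0 j| + |(t 1 - round (t 1)) * c 1 j|
        + |(t 2 - round (t 2)) * c 2 j| := abs_add_three _ _ _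
    _ ≤ _ := by linarith [h3 0, h3 1, h3 2]

theorem ps_shift {K : Set V} {v s : V} {b : Fin 3 → V} (hs : s ∈ lat b) (h : PS K v b) :
    PS K (v + s) b := by
  refine ⟨h.1, fun u hu => ?_⟩
  rw [add_assoc]
  exact h.2 _ (lat_add hs hu)

theorem ps_eqv {K : Set V} {v : V} {b c : Fin 3 → V} (he : Eqv b c) (h : PS K v b) :
    PS K v c := by
  unfold PS
  rw [he.1]
  exact h

/-- **compactness** -/
theorem limS {K : Set V} {Kn : ℕ → Set V}
    (hint : ∀ x ∈ interior K, ∃ ε : ℝ, 0 < ε ∧ ∀ᶠ n in atTop, ∀ y, dist y x < ε →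
      y ∈ interior (Kn n))
    {b : ℕ → Fin 3 → V} (hb : ∀ n, dt (b n) ≠ 0) {v : ℕ → V}
    (hp : ∀ n, PS (Kn n) (v n) (b n))
    {ρ Δ : ℝ} (hρ : 0 < ρ) (hlow : ∀ n, ∀ u ∈ lat (b n), u ≠ 0 → ρ ^ 2 ≤ ip u u)
    (hΔ : ∀ n, |dt (b n)| ≤ Δ) :
    ∃ (φ : ℕ → ℕ) (c' : Fin 3 → V) (v' : V) (s : ℕ → V), StrictMono φ ∧ dt c' ≠ 0 ∧
      |dt c'| ≤ Δ ∧ PS K v' c' ∧ (∀ n, s n ∈ lat (b (φ n))) ∧
      Tendsto (fun n => v (φ n) + s n) atTop (𝓝 v') ∧
      ∀ (u : ℕ → V) (w : V), (∀ n, u n ∈ lat (b (φ n))) → Tendsto u atTop (𝓝 w) →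
        w ∈ lat c' ∧ ((∀ n, u n ≠ 0) → w ≠ 0) := by
  obtain ⟨c, φ, c', B, hcE, hB0, hce, hφ, hlim, hd0, hdΔ⟩ := bases hb hρ hlow hΔ
  have hcd : ∀ n, dt (c n) ≠ 0 := by
    intro n h0
    have := (hcE n).2
    rw [h0, abs_zero] at this
    exact hb n (abs_eq_zero.1 this.symm)
  choose s hs hsB using fun n => rep (hcd (φ n)) (fun i j => hce (φ n) i j) (v (φ n))
  have hbd : Bornology.IsBounded (Set.range fun n => v (φ n) + s n) := by
    rw [isBounded_iff_forall_norm_le]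
    refine ⟨2 * B, ?_⟩
    rintro _ ⟨n, rfl⟩
    rw [pi_norm_le_iff_of_nonneg (by positivity)]
    intro j
    exact hsB n j
  obtain ⟨v', -, ψ, hψ, hlimv⟩ := tendsto_subseq_of_bounded hbd (fun n => Set.mem_range_self n)
  refine ⟨φ ∘ ψ, c', v', fun n => s (ψ n), hφ.comp hψ, hd0, hdΔ, ?_, ?_, hlimv, ?_⟩
  · refine packs_lim (Kn := fun n => Kn (φ (ψ n))) (c := fun n => c (φ (ψ n)))
      (v := fun n => v (φ (ψ n)) + s (ψ n)) ?_ (hlim.comp hψ.tendsto_atTop) (fun n => hcd _)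
      hlimv (fun n => ps_shift (hs _) (ps_eqv (hcE _) (hp _)))
    intro x hx
    obtain ⟨ε, hε, h1⟩ := hint x hx
    exact ⟨ε, hε, (hφ.comp hψ).tendsto_atTop.eventually h1⟩
  · intro n
    show s (ψ n) ∈ lat (b (φ (ψ n)))
    rw [← (hcE (φ (ψ n))).1]
    exact hs _
  · intro u w hu hlimu
    refine vecs (c := fun n => c (φ (ψ n))) (hlim.comp hψ.tendsto_atTop) hd0 (fun n => ?_) hlimu
    rw [(hcE (φ (ψ n))).1]
    exact hu n

end Pool.Agent.V8H55.CS
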