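import Pool.Agent.V8H55.CS.MinS

/-!
# Double lattice packings: extreme points and the number of vertices
-/

namespace Pool.Agent.V8H55.CS

open MeasureTheory Set Filter Topology
open Pool.Agent.H349R2.Tet (V lat dt dt_eq Ov lat_add lat_neg lat_smul pack_sub_mem)
open Pool.Agent.TH219.DL
open Pool.Agent.V8H55.MD
open Pool.Agent.V8H55.CP

/-- the contact points of densest double lattice packings -/
def ConS (K : Set V) : Set V :=
  {p | p ∈ K ∧ ∃ (g : V) (b : Fin 3 → V) (u : V), DensestS K g b ∧ u ∈ lat b ∧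
    ((u ≠ 0 ∧ p - u ∈ K) ∨ g + u - p ∈ K)}

theorem conS_closed {K : Set V} (hK : Body K) : IsClosed (ConS K) := by
  apply isClosed_of_closure_subset
  intro p hp
  obtain ⟨q, hq, hlim⟩ := mem_closure_iff_seq_limit.1 hp
  have hpK : p ∈ K := hK.1.isClosed.mem_of_tendsto hlim (Eventually.of_forall fun n => (hq n).1)
  choose g b u hd hu hor using fun n => (hq n).2
  obtain ⟨c, hc⟩ := hK.2.2
  obtain ⟨ρ, hρ, hball⟩ := Metric.isOpen_iff.1 isOpen_interior c hc
  obtain ⟨R, hR, hRu⟩ := dbd hK.1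
  have hint : ∀ ψ : ℕ → ℕ, ∀ x ∈ interior K, ∃ ε : ℝ, 0 < ε ∧ ∀ᶠ n : ℕ in atTop, ∀ y,
      dist y x < ε → y ∈ interior ((fun _ => K) (ψ n)) := by
    intro ψ x hx
    obtain ⟨ε, hε, h1⟩ := Metric.isOpen_iff.1 isOpen_interior x hx
    exact ⟨ε, hε, Eventually.of_forall fun n y hy => h1 hy⟩
  have hb0 : ∀ n, dt (b n) ≠ 0 := fun n => (densestS_dt hK (hd n)).1
  have hbp : ∀ n, PS K (g n) (b n) := fun n => (densestS_dt hK (hd n)).2.1
  have hbd : ∀ n, |dt (b n)| ≤ cs K := fun n => (densestS_dt hK (hd n)).2.2.le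
  have hlow : ∀ n, ∀ u ∈ lat (b n), u ≠ 0 → ρ ^ 2 ≤ ip u u := fun n u hu hu0 =>
    low (c := c) hρ (fun y hy => hball hy) ((hbp n).1 u hu hu0)
  have hfr := Filter.frequently_or_distrib.1
    (Eventually.of_forall hor : ∀ᶠ n in atTop, _).frequently
  rcases hfr with hfr | hfr
  · obtain ⟨ψ, hψ, h1⟩ := Filter.extraction_of_frequently_atTop hfr
    obtain ⟨φ, v', b', w, hφ, hdens, hw, hw0, hlimu⟩ := lim1 (Kn := fun _ => K)
      (b := fun n => b (ψ n)) (v := fun n => g (ψ n)) hK (hint id)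
      (fun n => hb0 _) (fun n => hbp _) hρ (fun n => hlow _) (fun n => hbd _)
      (u := fun n => u (ψ n)) (fun n => hu _) (fun n => (h1 n).1) (fun n => by
        have := (hRu _ (hq (ψ n)).1 _ (h1 n).2).1
        rwa [sub_sub_cancel] at this)
    refine ⟨hpK, v', b', w, hdens, hw, Or.inl ⟨hw0, ?_⟩⟩
    have hlim2 : Tendsto (fun n => q (ψ (φ n)) - u (ψ (φ n))) atTop (𝓝 (p - w)) :=
      (hlim.comp (hψ.comp hφ).tendsto_atTop).sub hlimu
    exact hK.1.isClosed.mem_of_tendsto hlim2 (Eventually.of_forall fun n => (h1 (φ n)).2)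
  · obtain ⟨ψ, hψ, h1⟩ := Filter.extraction_of_frequently_atTop hfr
    obtain ⟨φ, v', b', w, hφ, hdens, hw, hlimu⟩ := lim2 (Kn := fun _ => K)
      (b := fun n => b (ψ n)) (v := fun n => g (ψ n)) hK (hint id)
      (fun n => hb0 _) (fun n => hbp _) hρ (fun n => hlow _) (fun n => hbd _)
      (u := fun n => u (ψ n)) (fun n => hu _) (fun n => by
        have := (hRu _ (hq (ψ n)).1 _ (h1 n)).2
        rwa [add_sub_cancel] at this)
    refine ⟨hpK, v', b', w, hdens, hw, Or.inr ?_⟩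
    have hlim2 : Tendsto (fun n => g (ψ (φ n)) + u (ψ (φ n)) - q (ψ (φ n))) atTop
        (𝓝 (v' + w - p)) := hlimu.sub (hlim.comp (hψ.comp hφ).tendsto_atTop)
    exact hK.1.isClosed.mem_of_tendsto hlim2 (Eventually.of_forall fun n => h1 (φ n))

theorem expo_contactS {K : Set V} (hK : Body K) (hmin : LocMinS K) {p : V} (hp : p ∈ Expo K) :
    ∃ (g : V) (b : Fin 3 → V) (u : V), DensestS K g b ∧ u ∈ lat b ∧
      ((u ≠ 0 ∧ p - u ∈ K ∧ ∃ a d : V, ∀ x ∈ K, x - u ∈ K → ∃ t : ℝ, x = a + t • d) ∨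
        (g + u - p ∈ K ∧ ∃ a d : V, ∀ x ∈ K, g + u - x ∈ K → ∃ t : ℝ, x = a + t • d)) := by
  obtain ⟨hp1, v, hv⟩ := hp
  exact exposed_contactS hK hmin hp1 hv

/-- **extreme points are contact points** -/
theorem extreme_contactS {K : Set V} (hK : Body K) (hmin : LocMinS K) {p : V}
    (hp : p ∈ K.extremePoints ℝ) : p ∈ ConS K := by
  have h1 : Expo K ⊆ ConS K := by
    intro q hq
    obtain ⟨g, b, u, h1, h2, h3⟩ := expo_contactS hK hmin hq
    refine ⟨hq.1, g, b, u, h1, h2, ?_⟩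
    rcases h3 with ⟨h3, h4, -⟩ | ⟨h3, -⟩
    · exact Or.inl ⟨h3, h4⟩
    · exact Or.inr h3
  have h2 : IsCompact (ConS K) := hK.1.of_isClosed_subset (conS_closed hK) fun q hq => hq.1
  have h3 := Pool.Agent.TH276.Torsion.isCompact_convexHull_of_isCompact h2
  have h4 : K ⊆ convexHull ℝ (ConS K) :=
    (sub_hull_expo hK.1).trans (closure_minimal (convexHull_mono h1) h3.isClosed)
  have h5 : convexHull ℝ (ConS K) = K :=
    Set.Subset.antisymm (convexHull_min (fun q hq => hq.1) hK.2.1) h4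
  rw [← h5] at hp
  exact extremePoints_convexHull_subset hp

/-- contacts with reflected copies are incongruent modulo 3 -/
theorem mod_threeS {K : Set V} (hK : Body K) {b : Fin 3 → V}
    (hp : ∀ u ∈ lat b, u ≠ 0 → ¬ Ov K u) {v : V} {z z' : Fin 3 → ℤ}
    (hz : ∃ x ∈ K, v + ∑ i, (z i : ℝ) • b i - x ∈ K)
    (hz' : ∃ x ∈ K, v + ∑ i, (z' i : ℝ) • b i - x ∈ K)
    (h3 : ∀ i, ((z i : ℤ) : ZMod 3) = ((z' i : ℤ) : ZMod 3)) :
    ∑ i, (z i : ℝ) • b i = ∑ i, (z' i : ℝ) • b i := by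
  by_contra hne
  obtain ⟨x, hx, hxu⟩ := hz
  obtain ⟨y, hy, hyu⟩ := hz'
  obtain ⟨c, hc⟩ := hK.2.2
  have hdiv : ∀ i, ∃ k : ℤ, z i - z' i = 3 * k := by
    intro i
    have h1 := (ZMod.intCast_eq_intCast_iff_dvd_sub (z' i) (z i) 3).1 (h3 i).symm
    obtain ⟨k, hk⟩ := h1
    exact ⟨k, by simpa using hk⟩
  choose k hk using hdiv
  set u := ∑ i, (z i : ℝ) • b i with hu
  set u' := ∑ i, (z' i : ℝ) • b i with hu'
  set w := ∑ i, (k i : ℝ) • b i with hw
  have h4 : u - u' = (3 : ℝ) • w := by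
    rw [hu, hu', hw, Finset.smul_sum, ← Finset.sum_sub_distrib]
    refine Finset.sum_congr rfl fun i _ => ?_
    rw [← sub_smul, smul_smul]
    congr 1
    have := hk i
    exact_mod_cast this
  have hw0 : w ≠ 0 := by
    intro h0
    rw [h0, smul_zero, sub_eq_zero] at h4
    exact hne h4
  have hmem : ∀ a1 ∈ K, ∀ a2 ∈ K, (1 / 3 : ℝ) • (a1 + a2 + c) ∈ interior K := by
    intro a1 h1 a2 h2
    have hm : (1 / 2 : ℝ) • a1 + (1 / 2 : ℝ) • a2 ∈ K :=
      hK.2.1 h1 h2 (by norm_num) (by norm_num) (by norm_num)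
    have h5 := hK.2.1.combo_self_interior_mem_interior hm hc (a := 2 / 3) (b := 1 / 3)
      (by norm_num) (by norm_num) (by norm_num)
    have e : (1 / 3 : ℝ) • (a1 + a2 + c) =
        (2 / 3 : ℝ) • ((1 / 2 : ℝ) • a1 + (1 / 2 : ℝ) • a2) + (1 / 3 : ℝ) • c := by module
    rw [e]; exact h5
  apply hp w ⟨k, rfl⟩ hw0
  refine ⟨_, hmem x hx _ hxu, ?_⟩
  have e : (1 / 3 : ℝ) • (x + (v + u - x) + c) - w =
      (1 / 3 : ℝ) • (y + (v + u' - y) + c) := by
    have h6 : w = (1 / 3 : ℝ) • (u - u') := by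
      rw [h4, smul_smul]; norm_num
    rw [h6]; module
  rw [e]
  exact hmem y hy _ hyu

/-- the translation vectors of the reflected copies that touch `K` -/
def CW (K : Set V) (W : Set V) : Set V := {w | w ∈ W ∧ ∃ x ∈ K, w - x ∈ K}

theorem cw_card {K : Set V} (hK : Body K) {b : Fin 3 → V}
    (hp : ∀ u ∈ lat b, u ≠ 0 → ¬ Ov K u) (v : V) :
    (CW K ((fun u => v + u) '' lat b)).Finite ∧
      (CW K ((fun u => v + u) '' lat b)).ncard ≤ 27 := by
  classical
  have hex : ∀ w : V, ∃ z : Fin 3 → ℤ, w ∈ (fun u => v + u) '' lat b →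
      w = v + ∑ i, (z i : ℝ) • b i := by
    intro w
    by_cases h : w ∈ (fun u => v + u) '' lat b
    · obtain ⟨u, ⟨z, hz⟩, hu⟩ := h
      refine ⟨z, fun _ => ?_⟩
      rw [← hu, ← hz]
    · exact ⟨0, fun h' => absurd h' h⟩
  choose z hz using hex
  set g : V → (Fin 3 → ZMod 3) := fun u i => ((z u i : ℤ) : ZMod 3) with hg
  have hinj : Set.InjOn g (CW K ((fun u => v + u) '' lat b)) := by
    intro u hu u' hu' h
    have h1 := hz u hu.1
    have h2 := hz u' hu'.1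
    have h3 := mod_threeS hK hp (v := v) (z := z u) (z' := z u') (by rw [← h1]; exact hu.2)
      (by rw [← h2]; exact hu'.2) (fun i => congrFun h i)
    rw [h1, h2, h3]
  have hfin : (CW K ((fun u => v + u) '' lat b)).Finite :=
    Set.Finite.of_finite_image (Set.toFinite _) hinj
  refine ⟨hfin, ?_⟩
  rw [← hinj.ncard_image]
  refine (Set.ncard_le_ncard (Set.subset_univ _) (Set.toFinite _)).trans ?_
  rw [Set.ncard_univ, Nat.card_eq_fintype_card]
  simp

/-- the exposed points of `K` in the contact set with `w - K`, if this is contained in a line -/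
def EW (K : Set V) (w : V) : Set V :=
  {p | p ∈ Expo K ∧ w - p ∈ K ∧ ∃ a d : V, ∀ x ∈ K, w - x ∈ K → ∃ t : ℝ, x = a + t • d}

theorem ew_card (K : Set V) (w : V) : (EW K w).Finite ∧ (EW K w).ncard ≤ 2 := by
  rcases (EW K w).eq_empty_or_nonempty with he | ⟨p, hp⟩
  · rw [he]; simp
  · obtain ⟨-, -, a, d, hl⟩ := hp
    exact line_two (fun q hq => hq.1) (fun q hq => hl q hq.1.1 hq.2.1)

/-- the densest double lattice packings, as pairs of the lattice and the set of the translation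
vectors of the reflected copies -/
def DLS (K : Set (Fin 3 → ℝ)) : Set (Set (Fin 3 → ℝ) × Set (Fin 3 → ℝ)) :=
  {q | ∃ v b, DensestS K v b ∧ q = (lat b, (fun u => v + u) '' lat b)}

/-- the exposed points that are contact points of the double lattice packing `q` -/
def EQ (K : Set V) (q : Set V × Set V) : Set V :=
  (⋃ u ∈ CV K q.1, EP K u) ∪ ⋃ w ∈ CW K q.2, EW K w

theorem expo_subS {K : Set V} (hK : Body K) (hmin : LocMinS K) :
    Expo K ⊆ ⋃ q ∈ DLS K, EQ K q := by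
  intro p hp
  obtain ⟨g, b, u, h1, h2, h3⟩ := expo_contactS hK hmin hp
  refine Set.mem_biUnion (x := (lat b, (fun u => g + u) '' lat b)) ⟨g, b, h1, rfl⟩ ?_
  rcases h3 with ⟨h3, h4, h5⟩ | ⟨h4, h5⟩
  · exact Or.inl (Set.mem_biUnion (x := u) ⟨h2, h3, p, hp.1, h4⟩ ⟨hp, h4, h5⟩)
  · exact Or.inr (Set.mem_biUnion (x := g + u) ⟨⟨u, h2, rfl⟩, p, hp.1, h4⟩ ⟨hp, h4, h5⟩)

theorem biUnion_card {A : Set V} {f : V → Set V} {n : ℕ} (hA : A.Finite)
    (hf : ∀ u, (f u).Finite ∧ (f u).ncard ≤ 2) (hn : A.ncard ≤ n) :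
    (⋃ u ∈ A, f u).Finite ∧ (⋃ u ∈ A, f u).ncard ≤ n * 2 := by
  classical
  set F : Finset V := hA.toFinset.biUnion fun u => (hf u).1.toFinset with hF
  have hsub : (⋃ u ∈ A, f u) ⊆ (F : Set V) := by
    intro p hp
    rw [Set.mem_iUnion₂] at hp
    obtain ⟨u, hu, h3⟩ := hp
    rw [hF, Finset.mem_coe, Finset.mem_biUnion]
    exact ⟨u, hA.mem_toFinset.2 hu, (hf u).1.mem_toFinset.2 h3⟩
  refine ⟨F.finite_toSet.subset hsub, ?_⟩
  calc (⋃ u ∈ A, f u).ncard ≤ (F : Set V).ncard := Set.ncard_le_ncard hsub F.finite_toSet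
    _ = F.card := Set.ncard_coe_finset F
    _ ≤ hA.toFinset.card * 2 := by
        refine Finset.card_biUnion_le_card_mul _ _ 2 fun u _ => ?_
        rw [← Set.ncard_eq_toFinset_card _ (hf u).1]
        exact (hf u).2
    _ ≤ n * 2 := by
        rw [← Set.ncard_eq_toFinset_card _ hA]
        exact Nat.mul_le_mul_right _ hn

theorem eq_card {K : Set V} (hK : Body K) {q : Set V × Set V} (hq : q ∈ DLS K) :
    (EQ K q).Finite ∧ (EQ K q).ncard ≤ 106 := by
  obtain ⟨v, b, h, rfl⟩ := hq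
  have hp := (densestS_dt hK h).2.1.1
  obtain ⟨c1, c2⟩ := cv_card hK hp
  obtain ⟨c3, c4⟩ := cw_card hK hp v
  obtain ⟨d1, d2⟩ := biUnion_card c1 (fun u => ep_card K u) c2
  obtain ⟨d3, d4⟩ := biUnion_card c3 (fun u => ew_card K u) c4
  exact ⟨d1.union d3, (Set.ncard_union_le _ _).trans (by linarith)⟩

theorem expo_countableS {K : Set V} (hK : Body K) (hmin : LocMinS K)
    (hc : (DLS K).Countable) : (Expo K).Countable :=
  Set.Countable.mono (expo_subS hK hmin) (hc.biUnion fun _ hq => (eq_card hK hq).1.countable)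

/-- the number of vertices -/
theorem expo_cardS {K : Set V} (hK : Body K) (hmin : LocMinS K) (hc : (DLS K).Finite) :
    (Expo K).Finite ∧ (Expo K).ncard ≤ 106 * (DLS K).ncard := by
  classical
  have hQ : ∀ q, (if q ∈ DLS K then EQ K q else ∅).Finite := by
    intro q
    split_ifs with h
    · exact (eq_card hK h).1
    · exact Set.finite_empty
  set F : Finset V := hc.toFinset.biUnion fun q => (hQ q).toFinset with hF
  have hsub : Expo K ⊆ (F : Set V) := by
    intro p hp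
    have h1 := expo_subS hK hmin hp
    rw [Set.mem_iUnion₂] at h1
    obtain ⟨q, hq, h2⟩ := h1
    rw [hF, Finset.mem_coe, Finset.mem_biUnion]
    refine ⟨q, hc.mem_toFinset.2 hq, (hQ q).mem_toFinset.2 ?_⟩
    rw [if_pos hq]; exact h2
  have hFc : F.card ≤ (DLS K).ncard * 106 := by
    rw [Set.ncard_eq_toFinset_card _ hc]
    refine Finset.card_biUnion_le_card_mul _ _ _ fun q hq => ?_
    have hq' := hc.mem_toFinset.1 hq
    rw [← Set.ncard_eq_toFinset_card _ (hQ q), if_pos hq']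
    exact (eq_card hK hq').2
  refine ⟨F.finite_toSet.subset hsub, ?_⟩
  calc (Expo K).ncard ≤ (F : Set V).ncard := Set.ncard_le_ncard hsub F.finite_toSet
    _ = F.card := Set.ncard_coe_finset F
    _ ≤ (DLS K).ncard * 106 := hFc
    _ = 106 * (DLS K).ncard := by ring

theorem locMinS_of_min {K : Set V} (h : dLs K = mn dLs) : LocMinS K :=
  ⟨1, one_pos, fun K' hK' _ _ => by rw [h]; exact iInf₂_le K' hK'⟩

end Pool.Agent.V8H55.CS
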