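import Pool.Agent.V8H55.CS.TouchS

/-!
# Contact points of local minimisers of the double lattice packing density
-/

namespace Pool.Agent.V8H55.CS

open MeasureTheory Set Filter Topology
open Pool.Agent.H349R2.Tet (V lat dt dt_eq Ov lat_add lat_neg lat_smul pack_sub_mem)
open Pool.Agent.TH219.DL
open Pool.Agent.V8H55.MD
open Pool.Agent.V8H55.CP

/-- the bodies inside `K` and close to `K` have at least the double lattice packing density
of `K` -/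
def LocMinS (K : Set (Fin 3 → ℝ)) : Prop :=
  ∃ η : ℝ, 0 < η ∧ ∀ K' : Set (Fin 3 → ℝ), Body K' → K' ⊆ K →
    (∀ y ∈ K, ∃ x ∈ K', dist x y < η) → dLs K ≤ dLs K'

section lim

variable {K : Set V} {Kn : ℕ → Set V} {b : ℕ → Fin 3 → V} {v : ℕ → V} {ρ : ℝ}

theorem lim1 (hK : Body K)
    (hint : ∀ x ∈ interior K, ∃ ε : ℝ, 0 < ε ∧ ∀ᶠ n in atTop, ∀ y, dist y x < ε →
      y ∈ interior (Kn n))
    (hb : ∀ n, dt (b n) ≠ 0) (hp : ∀ n, PS (Kn n) (v n) (b n)) (hρ : 0 < ρ)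
    (hlow : ∀ n, ∀ u ∈ lat (b n), u ≠ 0 → ρ ^ 2 ≤ ip u u) (hΔ : ∀ n, |dt (b n)| ≤ cs K)
    {u : ℕ → V} (hu : ∀ n, u n ∈ lat (b n)) (hu0 : ∀ n, u n ≠ 0) {R : ℝ}
    (huR : ∀ n, ‖u n‖ ≤ R) :
    ∃ (φ : ℕ → ℕ) (v' : V) (b' : Fin 3 → V) (w : V), StrictMono φ ∧ DensestS K v' b' ∧
      w ∈ lat b' ∧ w ≠ 0 ∧ Tendsto (fun n => u (φ n)) atTop (𝓝 w) := by
  have hbd : Bornology.IsBounded (Set.range u) := by
    rw [isBounded_iff_forall_norm_le]
    refine ⟨R, ?_⟩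
    rintro _ ⟨n, rfl⟩
    exact huR n
  obtain ⟨w, -, ψ, hψ, hlim⟩ := tendsto_subseq_of_bounded hbd (fun n => Set.mem_range_self n)
  have hint' : ∀ x ∈ interior K, ∃ ε : ℝ, 0 < ε ∧ ∀ᶠ n in atTop, ∀ y, dist y x < ε →
      y ∈ interior ((fun n => Kn (ψ n)) n) := by
    intro x hx
    obtain ⟨ε, hε, h1⟩ := hint x hx
    exact ⟨ε, hε, hψ.tendsto_atTop.eventually h1⟩
  obtain ⟨φ, c', v', s, hφ, h1, h2, h3, h4, h5, h6⟩ := limS hint' (b := fun n => b (ψ n))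
    (fun n => hb _) (v := fun n => v (ψ n)) (fun n => hp _) hρ (fun n => hlow _) (fun n => hΔ _)
  obtain ⟨h7, h8⟩ := h6 (fun n => u (ψ (φ n))) w (fun n => hu _) (hlim.comp hφ.tendsto_atTop)
  exact ⟨ψ ∘ φ, v', c', w, hψ.comp hφ, densestS_of hK h1 h3 h2, h7, h8 (fun n => hu0 _),
    hlim.comp hφ.tendsto_atTop⟩

theorem lim2 (hK : Body K)
    (hint : ∀ x ∈ interior K, ∃ ε : ℝ, 0 < ε ∧ ∀ᶠ n in atTop, ∀ y, dist y x < ε →
      y ∈ interior (Kn n))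
    (hb : ∀ n, dt (b n) ≠ 0) (hp : ∀ n, PS (Kn n) (v n) (b n)) (hρ : 0 < ρ)
    (hlow : ∀ n, ∀ u ∈ lat (b n), u ≠ 0 → ρ ^ 2 ≤ ip u u) (hΔ : ∀ n, |dt (b n)| ≤ cs K)
    {u : ℕ → V} (hu : ∀ n, u n ∈ lat (b n)) {R : ℝ}
    (huR : ∀ n, ‖v n + u n‖ ≤ R) :
    ∃ (φ : ℕ → ℕ) (v' : V) (b' : Fin 3 → V) (w : V), StrictMono φ ∧ DensestS K v' b' ∧
      w ∈ lat b' ∧ Tendsto (fun n => v (φ n) + u (φ n)) atTop (𝓝 (v' + w)) := by
  have hbd : Bornology.IsBounded (Set.range fun n => v n + u n) := by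
    rw [isBounded_iff_forall_norm_le]
    refine ⟨R, ?_⟩
    rintro _ ⟨n, rfl⟩
    exact huR n
  obtain ⟨w0, -, ψ, hψ, hlim⟩ := tendsto_subseq_of_bounded hbd (fun n => Set.mem_range_self n)
  have hint' : ∀ x ∈ interior K, ∃ ε : ℝ, 0 < ε ∧ ∀ᶠ n in atTop, ∀ y, dist y x < ε →
      y ∈ interior ((fun n => Kn (ψ n)) n) := by
    intro x hx
    obtain ⟨ε, hε, h1⟩ := hint x hx
    exact ⟨ε, hε, hψ.tendsto_atTop.eventually h1⟩
  obtain ⟨φ, c', v', s, hφ, h1, h2, h3, h4, h5, h6⟩ := limS hint' (b := fun n => b (ψ n))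
    (fun n => hb _) (v := fun n => v (ψ n)) (fun n => hp _) hρ (fun n => hlow _) (fun n => hΔ _)
  have hlim0 : Tendsto (fun n => v (ψ (φ n)) + u (ψ (φ n))) atTop (𝓝 w0) :=
    hlim.comp hφ.tendsto_atTop
  have hlim2 : Tendsto (fun n => u (ψ (φ n)) - s n) atTop (𝓝 (w0 - v')) := by
    refine (hlim0.sub h5).congr fun n => ?_
    abel
  obtain ⟨h7, -⟩ := h6 (fun n => u (ψ (φ n)) - s n) (w0 - v')
    (fun n => pack_sub_mem (hu _) (h4 n)) hlim2
  refine ⟨ψ ∘ φ, v', c', w0 - v', hψ.comp hφ, densestS_of hK h1 h3 h2, h7, ?_⟩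
  rw [add_sub_cancel]
  exact hlim0

end lim

theorem dbd {K : Set V} (hK : IsCompact K) : ∃ R : ℝ, 0 ≤ R ∧ ∀ x ∈ K, ∀ y ∈ K,
    ‖x - y‖ ≤ R ∧ ‖x + y‖ ≤ R := by
  obtain ⟨R0, hR0⟩ := hK.isBounded.subset_closedBall (0 : V)
  refine ⟨2 * max R0 0, by positivity, fun x hx y hy => ?_⟩
  have h1 : ‖x‖ ≤ max R0 0 := (mem_closedBall_zero_iff.1 (hR0 hx)).trans (le_max_left _ _)
  have h2 : ‖y‖ ≤ max R0 0 := (mem_closedBall_zero_iff.1 (hR0 hy)).trans (le_max_left _ _)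
  constructor
  · calc ‖x - y‖ ≤ ‖x‖ + ‖y‖ := norm_sub_le _ _
      _ ≤ _ := by linarith
  · calc ‖x + y‖ ≤ ‖x‖ + ‖y‖ := norm_add_le _ _
      _ ≤ _ := by linarith

/-- **exposed points of local minimisers are contact points** -/
theorem exposed_contactS {K : Set V} (hK : Body K) (hmin : LocMinS K) {p v : V} (hp : p ∈ K)
    (hexp : ∀ y ∈ K, y ≠ p → ip v y < ip v p) :
    ∃ (g : V) (b : Fin 3 → V) (u : V), DensestS K g b ∧ u ∈ lat b ∧
      ((u ≠ 0 ∧ p - u ∈ K ∧ ∃ a d : V, ∀ x ∈ K, x - u ∈ K → ∃ t : ℝ, x = a + t • d) ∨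
        (g + u - p ∈ K ∧ ∃ a d : V, ∀ x ∈ K, g + u - x ∈ K → ∃ t : ℝ, x = a + t • d)) := by
  obtain ⟨η, hη, hloc⟩ := hmin
  obtain ⟨ε0, hε0, ⟨c, hc, hcv⟩, hnear⟩ := Kc_near hK hp hexp hη
  set e : ℕ → ℝ := fun n => ε0 / (n + 1) with he
  have hepos : ∀ n, 0 < e n := fun n => by simp only [he]; positivity
  have hele : ∀ n, e n ≤ ε0 := fun n => by
    simp only [he]
    rw [div_le_iff₀ (by positivity)]
    nlinarith [(Nat.cast_nonneg n : (0 : ℝ) ≤ n)]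
  have he0 : Tendsto e atTop (𝓝 0) := by
    have h1 := (tendsto_one_div_add_atTop_nhds_zero_nat (𝕜 := ℝ)).const_mul ε0
    rw [mul_zero] at h1
    refine h1.congr fun n => ?_
    simp only [he]
    ring
  have hbody : ∀ n, Body (Kc K v (ip v p - e n)) := fun n =>
    Kc_body hK ⟨c, hc, by linarith [hele n]⟩
  have hbet : ∀ n, ∃ (g : V) (b : Fin 3 → V), dt b ≠ 0 ∧ PS (Kc K v (ip v p - e n)) g b ∧
      |dt b| < cs K := by
    intro n
    exact exists_betterS hK (hbody n) (hloc _ (hbody n) inter_subset_left (hnear _ (hele n)))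
      (Kc_vol hK (hbody n) hp (by linarith [hepos n]))
  choose g b hb0 hbp hbd using hbet
  obtain ⟨ρ, hρ, hball⟩ : ∃ ρ : ℝ, 0 < ρ ∧ ∀ y, dist y c < ρ →
      y ∈ interior K ∧ ip v y < ip v p - ε0 := by
    have hop : IsOpen (interior K ∩ {y | ip v y < ip v p - ε0}) :=
      isOpen_interior.inter (isOpen_lt (ipc v) continuous_const)
    obtain ⟨ρ, hρ, h1⟩ := Metric.isOpen_iff.1 hop c ⟨hc, hcv⟩
    exact ⟨ρ, hρ, fun y hy => h1 hy⟩
  have hlow : ∀ n, ∀ u ∈ lat (b n), u ≠ 0 → ρ ^ 2 ≤ ip u u := by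
    intro n u hu hu0
    refine low (c := c) hρ (fun y hy => ?_) ((hbp n).1 u hu hu0)
    obtain ⟨h1, h2⟩ := hball y hy
    exact mem_int_Kc h1 (by linarith [hele n])
  obtain ⟨R, hR, hRu⟩ := dbd hK.1
  have hint : ∀ x ∈ interior K, ∃ ε : ℝ, 0 < ε ∧ ∀ᶠ n in atTop, ∀ y, dist y x < ε →
      y ∈ interior (Kc K v (ip v p - e n)) := by
    intro x hx
    have hxv := int_lt hexp hx
    have hop : IsOpen (interior K ∩ {y | ip v y < (ip v x + ip v p) / 2}) :=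
      isOpen_interior.inter (isOpen_lt (ipc v) continuous_const)
    obtain ⟨ε, hε, h1⟩ := Metric.isOpen_iff.1 hop x ⟨hx, (show ip v x < _ by linarith)⟩
    refine ⟨ε, hε, ?_⟩
    have h2 : 0 < (ip v p - ip v x) / 2 := by linarith
    filter_upwards [he0.eventually_lt_const h2] with n hn y hy
    obtain ⟨h3, h4⟩ := h1 hy
    have h5 : ip v y < (ip v x + ip v p) / 2 := h4
    exact mem_int_Kc h3 (by linarith)
  have hor : ∀ n, (∃ u ∈ lat (b n), u ≠ 0 ∧ Ov K u) ∨ ∃ u ∈ lat (b n), Ow K (g n + u) := by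
    intro n
    by_contra hcon
    push Not at hcon
    exact absurd (cs_le hK (v := g n) (hb0 n) ⟨hcon.1, hcon.2⟩) (not_le.2 (hbd n))
  have hfr := Filter.frequently_or_distrib.1
    (Eventually.of_forall hor : ∀ᶠ n in atTop, _).frequently
  rcases hfr with hfr | hfr
  · obtain ⟨ψ, hψ, h1⟩ := Filter.extraction_of_frequently_atTop hfr
    choose u hul hu0 huov using h1
    obtain ⟨φ, v', b', w, hφ, hdens, hw, hw0, hlim⟩ := lim1 (Kn := fun n =>
      Kc K v (ip v p - e (ψ n))) (b := fun n => b (ψ n)) (v := fun n => g (ψ n)) hK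
      (fun x hx => by
        obtain ⟨ε, hε, h1⟩ := hint x hx
        exact ⟨ε, hε, hψ.tendsto_atTop.eventually h1⟩)
      (fun n => hb0 _) (fun n => hbp _) hρ (fun n => hlow _) (fun n => (hbd _).le) hul hu0
      (fun n => by
        obtain ⟨x, hx, hxu⟩ := huov n
        have := (hRu x (interior_subset hx) _ (interior_subset hxu)).1
        rwa [sub_sub_cancel] at this)
    have hps := (densestS_dt hK hdens).2.1
    obtain ⟨h1, a, d, hline⟩ := touch (e := fun n => e (ψ (φ n))) (u := fun n => u (φ n)) hK hp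
      hexp (he0.comp (hψ.tendsto_atTop.comp hφ.tendsto_atTop)) hlim
      (fun n => huov (φ n)) (fun n => (hbp (ψ (φ n))).1 _ (hul _) (hu0 _)) (hps.1 w hw hw0)
    rcases h1 with h1 | h1
    · exact ⟨v', b', w, hdens, hw, Or.inl ⟨hw0, h1, a, d, hline⟩⟩
    · refine ⟨v', b', -w, hdens, lat_neg hw, Or.inl ⟨neg_ne_zero.2 hw0, ?_, a - w, d, ?_⟩⟩
      · rw [sub_neg_eq_add]; exact h1
      · intro x hx hxw
        rw [sub_neg_eq_add] at hxw
        obtain ⟨t, ht⟩ := hline (x + w) hxw (by rw [add_sub_cancel_right]; exact hx)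
        refine ⟨t, ?_⟩
        have e1 : x = x + w - w := by abel
        rw [e1, ht]; abel
  · obtain ⟨ψ, hψ, h1⟩ := Filter.extraction_of_frequently_atTop hfr
    choose u hul huov using h1
    obtain ⟨φ, v', b', w, hφ, hdens, hw, hlim⟩ := lim2 (Kn := fun n =>
      Kc K v (ip v p - e (ψ n))) (b := fun n => b (ψ n)) (v := fun n => g (ψ n)) hK
      (fun x hx => by
        obtain ⟨ε, hε, h1⟩ := hint x hx
        exact ⟨ε, hε, hψ.tendsto_atTop.eventually h1⟩)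
      (fun n => hb0 _) (fun n => hbp _) hρ (fun n => hlow _) (fun n => (hbd _).le) hul
      (fun n => by
        obtain ⟨x, hx, hxu⟩ := huov n
        have := (hRu x (interior_subset hx) _ (interior_subset hxu)).2
        rwa [add_sub_cancel] at this)
    have hps := (densestS_dt hK hdens).2.1
    obtain ⟨h1, h2⟩ := touchS (e := fun n => e (ψ (φ n)))
      (u := fun n => g (ψ (φ n)) + u (φ n)) hK hp
      hexp (he0.comp (hψ.tendsto_atTop.comp hφ.tendsto_atTop)) hlim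
      (fun n => huov (φ n)) (fun n => (hbp (ψ (φ n))).2 _ (hul _)) (hps.2 w hw)
    exact ⟨v', b', w, hdens, hw, Or.inr ⟨h1, h2⟩⟩

end Pool.Agent.V8H55.CS
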