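import Pool.Agent.V8H55.CP.Fin
import Pool.Agent.N791.RU.Basic

/-!
# Double lattice packings: densities and determinants
-/

namespace Pool.Agent.V8H55.CS

open MeasureTheory Set Filter Topology
open scoped ENNReal
open Pool.Agent.H349R2.Tet (V lat dt dt_eq Ov Packs dens deltaL packs_iff dens_eq tr dt_ne_zero_iff
  pack_zero_mem)
open Pool.Agent.TH219.DL
open Pool.Agent.V8H55.MD
open Pool.Agent.V8H55.CP

/-- the interiors of `A` and `w - A` meet -/
def Ow (A : Set V) (w : V) : Prop := ∃ x ∈ interior A, w - x ∈ interior A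

/-- the conditions for a double lattice packing -/
def PS (K : Set V) (v : V) (b : Fin 3 → V) : Prop :=
  (∀ u ∈ lat b, u ≠ 0 → ¬ Ov K u) ∧ ∀ u ∈ lat b, ¬ Ow K (v + u)

theorem mem_int_rfl (K : Set V) (v s y : V) :
    y ∈ interior (tr (rfl' K v) s) ↔ v + s - y ∈ interior K := by
  rw [← mem_true, interior_mem]
  unfold mem
  simp only [if_true]
  constructor
  · rintro ⟨x, hx, rfl⟩
    have e : v + s - (-x + (v + s)) = x := by abel
    rw [e]; exact hx
  · intro h
    exact ⟨_, h, by abel⟩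

theorem packs_star (K : Set V) (v : V) (b : Fin 3 → V) :
    (LinearIndependent ℝ b ∧ IsPack K (famLs v b)) ↔ dt b ≠ 0 ∧ PS K v b := by
  rw [dt_ne_zero_iff]
  refine and_congr_right fun hb => ⟨fun h => ⟨?_, ?_⟩, fun h => famLs_pack h.1 ?_⟩
  · have h1 : Packs K b := (packs_famL K b).1 ⟨hb, fun p hp q hq => h p (Or.inl hp) q (Or.inl hq)⟩
    exact ((packs_iff K b).1 h1).2
  · rintro u hu ⟨x, hx, hxu⟩
    have h1 := h (false, 0) (Or.inl ⟨rfl, pack_zero_mem b⟩) (true, v + u) (Or.inr ⟨rfl, u, hu, rfl⟩)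
      (by simp)
    rw [mem_false, mem_true, Set.disjoint_left] at h1
    have e : tr K 0 = K := by unfold tr; simp
    rw [e] at h1
    exact h1 hx ((mem_int_rfl K v u x).2 hxu)
  · intro s hs
    rw [Set.disjoint_left]
    intro x hx hxs
    exact h.2 s hs ⟨x, hx, (mem_int_rfl K v s x).1 hxs⟩

theorem rfl_convex {K : Set V} (hc : Convex ℝ K) (v : V) : Convex ℝ (rfl' K v) := by
  rintro _ ⟨x, hx, rfl⟩ _ ⟨y, hy, rfl⟩ α β hα hβ hαβ
  refine ⟨α • x + β • y, hc hx hy hα hβ hαβ, ?_⟩
  have e : v = α • v + β • v := by rw [← add_smul, hαβ, one_smul]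
  simp only [smul_sub]
  nth_rewrite 1 [e]
  abel

/-- the density of a double lattice packing -/
theorem den_star {K : Set V} (hK : Body K) {v : V} {b : Fin 3 → V} (hb : dt b ≠ 0)
    (hp : PS K v b) : den K (famLs v b) = 2 * volume K / ENNReal.ofReal |dt b| := by
  have hli : LinearIndependent ℝ b := (dt_ne_zero_iff b).1 hb
  apply le_antisymm
  · refine (Pool.Agent.N791.RU.den_split K _).trans ?_
    rw [Pool.Agent.N791.RU.split_famLs_false, Pool.Agent.N791.RU.split_famLs_true,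
      Pool.Agent.N791.RU.den_true, den_famL, dens_eq b hli _ (rfl_compact hK.1 v),
      vol_rfl hK.1.measurableSet, dens_eq b hli _ hK.1, ← ENNReal.add_div, two_mul]
  · refine le_trans ?_ (den_famLs K v b)
    rw [dens_eq b hli _ (hK.1.union (rfl_compact hK.1 v))]
    apply ENNReal.div_le_div_right
    have hd : Disjoint (interior K) (interior (rfl' K v)) := by
      rw [Set.disjoint_left]
      intro x hx hxs
      have e : tr (rfl' K v) 0 = rfl' K v := by unfold tr; simp
      rw [← e, mem_int_rfl] at hxs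
      exact hp.2 0 (pack_zero_mem b) ⟨x, hx, hxs⟩
    have hrc := rfl_convex hK.2.1 v
    calc 2 * volume K = volume (interior K) + volume (interior (rfl' K v)) := by
          rw [vol_int hK.2.1, vol_int hrc, vol_rfl hK.1.measurableSet, two_mul]
      _ = volume (interior K ∪ interior (rfl' K v)) :=
          (measure_union hd isOpen_interior.measurableSet).symm
      _ ≤ volume (K ∪ rfl' K v) :=
          measure_mono (Set.union_subset_union interior_subset interior_subset)

theorem dLs_pos {K : Set V} (hK : Body K) : dLs K ≠ 0 := by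
  intro h
  have h1 := dLs_low hK
  rw [h, nonpos_iff_eq_zero, ENNReal.ofReal_eq_zero] at h1
  norm_num at h1

theorem dLs_ne_top {K : Set V} (hK : Body K) : dLs K ≠ ∞ := by
  refine ne_top_of_le_ne_top ?_ (Pool.Agent.N791.RU.dLs_le hK.1)
  exact ENNReal.mul_ne_top (by norm_num) (dL_ne_top hK)

/-- the least determinant of the lattice of a double lattice packing -/
noncomputable def cs (K : Set V) : ℝ := (2 * volume K / dLs K).toReal

theorem two_vol_ne {K : Set V} (hK : Body K) : 2 * volume K ≠ 0 :=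
  mul_ne_zero two_ne_zero (vol_ne_zero hK)

theorem two_vol_top {K : Set V} (hK : Body K) : 2 * volume K ≠ ∞ :=
  ENNReal.mul_ne_top (by norm_num) (vol_ne_top hK)

theorem cs_pos {K : Set V} (hK : Body K) : 0 < cs K := by
  unfold cs
  apply ENNReal.toReal_pos
  · exact (ENNReal.div_pos (two_vol_ne hK) (dLs_ne_top hK)).ne'
  · exact (ENNReal.div_lt_top (two_vol_top hK) (dLs_pos hK)).ne

theorem two_vol_eq {K : Set V} (hK : Body K) : 2 * volume K = dLs K * ENNReal.ofReal (cs K) := by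
  unfold cs
  rw [ENNReal.ofReal_toReal (ENNReal.div_lt_top (two_vol_top hK) (dLs_pos hK)).ne,
    ENNReal.mul_div_cancel (dLs_pos hK) (dLs_ne_top hK)]

theorem le_dLs {K : Set V} (hK : Body K) {v : V} {b : Fin 3 → V} (hb : dt b ≠ 0)
    (hp : PS K v b) : 2 * volume K / ENNReal.ofReal |dt b| ≤ dLs K := by
  rw [← den_star hK hb hp]
  exact le_iSup_of_le v (le_iSup₂_of_le (f := fun (b : Fin 3 → V)
    (_ : LinearIndependent ℝ b ∧ IsPack K (famLs v b)) => den K (famLs v b)) b
    ((packs_star K v b).2 ⟨hb, hp⟩) le_rfl)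

theorem cs_le {K : Set V} (hK : Body K) {v : V} {b : Fin 3 → V} (hb : dt b ≠ 0)
    (hp : PS K v b) : cs K ≤ |dt b| := by
  have h2 := le_dLs hK hb hp
  rw [ENNReal.div_le_iff (ofReal_abs_ne hb) ENNReal.ofReal_ne_top, two_vol_eq hK] at h2
  have h4 : ENNReal.ofReal (cs K) ≤ ENNReal.ofReal |dt b| :=
    (ENNReal.mul_le_mul_iff_right (dLs_pos hK) (dLs_ne_top hK)).1 h2
  exact (ENNReal.ofReal_le_ofReal_iff (abs_nonneg _)).1 h4

/-- the pair `v`, `b` gives a densest double lattice packing of `K` -/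
def DensestS (K : Set (Fin 3 → ℝ)) (v : Fin 3 → ℝ) (b : Fin 3 → (Fin 3 → ℝ)) : Prop :=
  LinearIndependent ℝ b ∧ IsPack K (famLs v b) ∧ den K (famLs v b) = dLs K

theorem densestS_of {K : Set V} (hK : Body K) {v : V} {b : Fin 3 → V} (hb : dt b ≠ 0)
    (hp : PS K v b) (hd : |dt b| ≤ cs K) : DensestS K v b := by
  have h2 := (packs_star K v b).2 ⟨hb, hp⟩
  refine ⟨h2.1, h2.2, ?_⟩
  rw [den_star hK hb hp, le_antisymm hd (cs_le hK hb hp), two_vol_eq hK]
  refine ENNReal.mul_div_cancel_right ?_ ENNReal.ofReal_ne_top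
  rw [ne_eq, ENNReal.ofReal_eq_zero, not_le]
  exact cs_pos hK

theorem densestS_dt {K : Set V} (hK : Body K) {v : V} {b : Fin 3 → V} (h : DensestS K v b) :
    dt b ≠ 0 ∧ PS K v b ∧ |dt b| = cs K := by
  obtain ⟨h2, h3⟩ := (packs_star K v b).1 ⟨h.1, h.2.1⟩
  refine ⟨h2, h3, ?_⟩
  have h4 := h.2.2
  rw [den_star hK h2 h3] at h4
  unfold cs
  rw [← h4, ENNReal.div_eq_inv_mul, ENNReal.inv_div (Or.inl ENNReal.ofReal_ne_top)
    (Or.inl (ofReal_abs_ne h2)), ENNReal.div_mul_cancel (two_vol_ne hK) (two_vol_top hK),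
    ENNReal.toReal_ofReal (abs_nonneg _)]

theorem exists_betterS {K K' : Set V} (hK : Body K) (hK' : Body K') (hd : dLs K ≤ dLs K')
    (hv : volume K' < volume K) :
    ∃ (v : V) (b : Fin 3 → V), dt b ≠ 0 ∧ PS K' v b ∧ |dt b| < cs K := by
  by_contra hcon
  push Not at hcon
  have h1 : dLs K' ≤ 2 * volume K' / ENNReal.ofReal (cs K) := by
    unfold dLs
    refine iSup_le fun v => iSup₂_le fun b hb => ?_
    obtain ⟨h2, h3⟩ := (packs_star K' v b).1 hb
    rw [den_star hK' h2 h3]
    exact ENNReal.div_le_div_left (ENNReal.ofReal_le_ofReal (hcon v b h2 h3)) _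
  have h0 : ENNReal.ofReal (cs K) ≠ 0 := by
    rw [ne_eq, ENNReal.ofReal_eq_zero, not_le]; exact cs_pos hK
  have h2 : dLs K * ENNReal.ofReal (cs K) ≤
      2 * volume K' / ENNReal.ofReal (cs K) * ENNReal.ofReal (cs K) := by
    gcongr
    exact hd.trans h1
  rw [← two_vol_eq hK, ENNReal.div_mul_cancel h0 ENNReal.ofReal_ne_top] at h2
  exact absurd (lt_of_le_of_lt ((ENNReal.mul_le_mul_iff_right two_ne_zero (by norm_num)).1 h2) hv)
    (lt_irrefl _)

end Pool.Agent.V8H55.CS
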