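import Pool.Agent.V8H55.CS.CompS

/-!
# Contacts with reflected copies
-/

namespace Pool.Agent.V8H55.CS

open MeasureTheory Set Filter Topology
open Pool.Agent.H349R2.Tet (V lat dt dt_eq Ov lat_add lat_neg lat_smul)
open Pool.Agent.TH219.DL
open Pool.Agent.V8H55.MD
open Pool.Agent.V8H55.CP

/-- the limit of the overlaps with reflected copies created by cutting off caps at `p` is a contact
at `p`, and the contact set is contained in a line -/
theorem touchS {K : Set V} (hK : Body K) {p v : V} (hp : p ∈ K)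
    (hexp : ∀ y ∈ K, y ≠ p → ip v y < ip v p) {e : ℕ → ℝ}
    (he0 : Tendsto e atTop (𝓝 0)) {u : ℕ → V} {w : V} (hlim : Tendsto u atTop (𝓝 w))
    (hov : ∀ n, Ow K (u n)) (hnov : ∀ n, ¬ Ow (Kc K v (ip v p - e n)) (u n)) (hw : ¬ Ow K w) :
    w - p ∈ K ∧ ∃ a d : V, ∀ x ∈ K, w - x ∈ K → ∃ t : ℝ, x = a + t • d := by
  constructor
  · by_contra h1
    obtain ⟨r1, hr1, hb1⟩ := Metric.isOpen_iff.1 hK.1.isClosed.isOpen_compl _ h1
    have hη0 : 0 < r1 / 2 := by positivity
    obtain ⟨ε, hε, hcap⟩ := cap_small hK.1 hexp hη0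
    have ev1 : ∀ᶠ n in atTop, dist (u n) w < r1 / 2 := (Metric.tendsto_nhds.1 hlim) _ hη0
    have ev2 : ∀ᶠ n in atTop, e n < ε := he0.eventually_lt_const hε
    obtain ⟨n, hn1, hn2⟩ := (ev1.and ev2).exists
    have k1 : ∀ y, dist y p < r1 / 2 → u n - y ∉ K := by
      intro y hy
      apply hb1
      rw [Metric.mem_ball]
      calc dist (u n - y) (w - p) ≤ dist (u n) w + dist y p := dist_sub_sub_le _ _ _ _
        _ < r1 := by linarith
    obtain ⟨x, hx, hxu⟩ := hov n
    apply hnov n
    refine ⟨x, mem_int_Kc hx ?_, mem_int_Kc hxu ?_⟩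
    · by_contra hge
      push Not at hge
      exact k1 x (hcap x (interior_subset hx) (by linarith)) (interior_subset hxu)
    · by_contra hge
      push Not at hge
      apply k1 (u n - x) (hcap _ (interior_subset hxu) (by linarith))
      rw [sub_sub_cancel]
      exact interior_subset hx
  · by_contra hcon
    push Not at hcon
    obtain ⟨a1, h1, h1w, -⟩ := hcon 0 0
    obtain ⟨a2, h2, h2w, h12⟩ := hcon a1 0
    obtain ⟨a3, h3, h3w, h123⟩ := hcon a1 (a2 - a1)
    have h12' : a2 ≠ a1 := by
      have := h12 0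
      simpa using this
    -- separation
    set W : Set V := (fun x => w - x) '' interior K with hW
    have hWo : IsOpen W := (Homeomorph.subLeft w).isOpenMap _ isOpen_interior
    have hWc : Convex ℝ W := rfl_convex hK.2.1.interior w
    have hdisj : Disjoint (interior K) W := by
      rw [Set.disjoint_left]
      rintro x hx ⟨y, hy, rfl⟩
      apply hw
      refine ⟨w - y, hx, ?_⟩
      rw [sub_sub_cancel]; exact hy
    obtain ⟨f, s, hf1, hf2⟩ := geometric_hahn_banach_open_open hK.2.1.interior isOpen_interior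
      hWc hWo hdisj
    obtain ⟨ω, hω⟩ := exists_ip f
    have g1 : ∀ x ∈ interior K, ip ω x < s := fun x hx => by rw [← hω]; exact hf1 x hx
    have g2 : ∀ x ∈ interior K, s < ip ω w - ip ω x := fun x hx => by
      rw [← ip_sub, ← hω]; exact hf2 _ ⟨x, hx, rfl⟩
    have hcl : ∀ x ∈ K, x ∈ closure (interior K) := fun x hx => by
      rw [hK.2.1.closure_interior_eq_closure_of_nonempty_interior hK.2.2]
      exact subset_closure hx
    have g3 : ∀ x ∈ K, ip ω x ≤ s := by
      intro x hx
      have : closure (interior K) ⊆ {x | ip ω x ≤ s} :=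
        closure_minimal (fun y hy => (g1 y hy).le) (isClosed_le (ipc ω) continuous_const)
      exact this (hcl x hx)
    have g4 : ∀ x ∈ K, s ≤ ip ω w - ip ω x := by
      intro x hx
      have : closure (interior K) ⊆ {x | s ≤ ip ω w - ip ω x} :=
        closure_minimal (fun y hy => (g2 y hy).le)
          (isClosed_le continuous_const (continuous_const.sub (ipc ω)))
      exact this (hcl x hx)
    -- the separating plane meets `K` in the contact set
    have g5 : ∀ a : V, a ∈ K → w - a ∈ K → ip ω a = s ∧ ip ω w = 2 * s := by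
      intro a ha haw
      have k1 := g3 a ha
      have k2 := g4 a ha
      have k3 := g3 _ haw
      have k4 := g4 _ haw
      rw [ip_sub] at k3 k4
      constructor <;> linarith
    obtain ⟨c, hc⟩ := hK.2.2
    have e1 := (g5 a1 h1 h1w).1
    have e2 := (g5 a2 h2 h2w).1
    have e3 := (g5 a3 h3 h3w).1
    have ew := (g5 a1 h1 h1w).2
    obtain ⟨ρ1, hρ1, hb1⟩ := half_ball hK.2.1 hc h1 h2 h3 e1 e2 e3 (g1 c hc) h12' h123
    obtain ⟨ρ2, hρ2, hb2⟩ := half_ball (w := ω) (s := s) hK.2.1 hc h1w h2w h3w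
      (by rw [ip_sub, e1]; linarith) (by rw [ip_sub, e2]; linarith)
      (by rw [ip_sub, e3]; linarith) (g1 c hc)
      (fun h => h12' (sub_right_injective h)) (fun t ht => h123 t (by
        have h4 : w - a2 - (w - a1) = a1 - a2 := by abel
        rw [h4] at ht
        have h5 : a3 = w - (w - a3) := by abel
        rw [h5, ht]; module))
    set q : V := (1 / 3 : ℝ) • (a1 + a2 + a3) with hq
    have hq' : (1 / 3 : ℝ) • (w - a1 + (w - a2) + (w - a3)) = w - q := by rw [hq]; module
    rw [hq'] at hb2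
    have h13 : a3 ≠ a1 := by
      have := h123 0
      simpa using this
    have hlt3 : ∀ y1 y2 y3 : V, y1 ∈ K → y2 ∈ K → y3 ∈ K → y2 ≠ y1 → y3 ≠ y1 →
        ip v ((1 / 3 : ℝ) • (y1 + y2 + y3)) < ip v p := by
      intro y1 y2 y3 m1 m2 m3 n2 n3
      have hle : ∀ y ∈ K, ip v y ≤ ip v p := fun y hy => by
        rcases eq_or_ne y p with rfl | h
        · exact le_rfl
        · exact (hexp y hy h).le
      rw [ip_smul, ip_add, ip_add]
      rcases eq_or_ne y1 p with h | h
      · have k2 := hexp y2 m2 (by rw [← h]; exact n2)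
        have k3 := hle y3 m3
        have k1 := hle y1 m1
        linarith
      · have k1 := hexp y1 m1 h
        have k2 := hle y2 m2
        have k3 := hle y3 m3
        linarith
    have hqv : ip v q < ip v p := hlt3 a1 a2 a3 h1 h2 h3 h12' h13
    have hqwv : ip v (w - q) < ip v p := by
      rw [← hq']
      exact hlt3 _ _ _ h1w h2w h3w (fun h => h12' (sub_right_injective h))
        (fun h => h13 (sub_right_injective h))
    -- the common points
    set y : ℕ → V := fun n => q - (1 / 2 : ℝ) • (w - u n) with hy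
    have hy1 : Tendsto y atTop (𝓝 q) := by
      have h4 : Tendsto (fun n => q - (1 / 2 : ℝ) • (w - u n)) atTop
          (𝓝 (q - (1 / 2 : ℝ) • (w - w))) :=
        ((hlim.const_sub w).const_smul (1 / 2 : ℝ)).const_sub q
      rw [sub_self, smul_zero, sub_zero] at h4
      exact h4
    have hy2 : Tendsto (fun n => u n - y n) atTop (𝓝 (w - q)) := hlim.sub hy1
    have ev1 : ∀ᶠ n in atTop, dist (y n) q < ρ1 := (Metric.tendsto_nhds.1 hy1) ρ1 hρ1
    have ev2 : ∀ᶠ n in atTop, dist (u n - y n) (w - q) < ρ2 := (Metric.tendsto_nhds.1 hy2) ρ2 hρ2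
    have ev3 : ∀ᶠ n in atTop, ip v (y n) < ip v p - e n := by
      have h4 : Tendsto (fun n => ip v (y n) + e n) atTop (𝓝 (ip v q + 0)) :=
        (((ipc v).tendsto q).comp hy1).add he0
      rw [add_zero] at h4
      filter_upwards [h4.eventually_lt_const hqv] with n hn
      linarith
    have ev4 : ∀ᶠ n in atTop, ip v (u n - y n) < ip v p - e n := by
      have h4 : Tendsto (fun n => ip v (u n - y n) + e n) atTop (𝓝 (ip v (w - q) + 0)) :=
        (((ipc v).tendsto (w - q)).comp hy2).add he0
      rw [add_zero] at h4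
      filter_upwards [h4.eventually_lt_const hqwv] with n hn
      linarith
    obtain ⟨n, n1, n2, n3, n4⟩ := (ev1.and (ev2.and (ev3.and ev4))).exists
    have hwu : ip ω (u n) < 2 * s := by
      obtain ⟨x, hx, hxu⟩ := hov n
      have k1 := g1 x hx
      have k2 := g1 _ hxu
      rw [ip_sub] at k2
      linarith
    have hqs : ip ω q = s := by
      rw [hq, ip_smul, ip_add, ip_add, e1, e2, e3]; ring
    have hys : ip ω (y n) = s - 1 / 2 * (2 * s - ip ω (u n)) := by
      simp only [hy]
      have e4 : ip ω (q - (1 / 2 : ℝ) • (w - u n)) = ip ω q - ip ω ((1 / 2 : ℝ) • (w - u n)) :=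
        ip_sub _ _ _
      have e5 : ip ω ((1 / 2 : ℝ) • (w - u n)) = 1 / 2 * ip ω (w - u n) := ip_smul _ _ _
      have e6 : ip ω (w - u n) = ip ω w - ip ω (u n) := ip_sub _ _ _
      rw [e4, e5, e6, hqs, ew]
    apply hnov n
    refine ⟨y n, mem_int_Kc (hb1 _ n1 ?_) n3, mem_int_Kc (hb2 _ n2 ?_) n4⟩
    · rw [hys]; linarith
    · rw [ip_sub, hys]; linarith

end Pool.Agent.V8H55.CS
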